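import Pool.Agent.Helper19.CP.Spec

set_option autoImplicit false

/-!
# Swarm CP (MP_2619d0_ag), part DEG: the fixed field of a subgroup as a subfield of `ℂ`
-/

namespace Pool.Agent.Helper76.CP.DEG

open Module IntermediateField

theorem finrank_fixed {K L : Type*} [Field K] [Field L] [Algebra K L] [FiniteDimensional K L]
    [IsGalois K L] (P : Subgroup (L ≃ₐ[K] L)) : finrank K (fixedField P) = P.index := by
  have h1 : finrank K (fixedField P) * finrank (fixedField P) L = finrank K L :=
    Module.finrank_mul_finrank K (fixedField P) L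
  rw [finrank_fixedField_eq_card, ← IsGalois.card_aut_eq_finrank K L, ← P.index_mul_card] at h1
  exact Nat.eq_of_mul_eq_mul_right Nat.card_pos h1

theorem main : Pool.Agent.Helper19.CP.S_DEG := by
  intro K L hfd hgal P
  let F : IntermediateField K ℂ := lift (fixedField P)
  have hle : K ≤ F.toSubfield := fun x hx => F.algebraMap_mem ⟨x, hx⟩
  refine ⟨F.toSubfield, hle, ?_, ?_⟩
  · rw [Subfield.relfinrank_eq_finrank_of_le hle]
    have h1 : Subfield.extendScalars hle = F := SetLike.coe_injective rfl
    rw [h1, ← finrank_fixed P]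
    exact (liftAlgEquiv (fixedField P)).toLinearEquiv.finrank_eq.symm
  · intro x hx
    change (x : ℂ) ∈ F
    rw [mem_lift, mem_fixedField_iff]
    exact hx

end Pool.Agent.Helper76.CP.DEG
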